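import Mathlib

namespace Pool.Agent.Results.MP_165839_co.Eta

open Finset
open scoped Classical

section defs
variable {V : Type} [Fintype V] (G : SimpleGraph V)

/-- The unit sphere of `x` in the subgraph of `G` induced on `s`. -/
noncomputable def sph (s : Finset V) (x : V) : Finset V := s.filter (fun y => G.Adj x y)

/-- The subgraph of `G` induced on `s` is collapsible. -/
inductive Coll : Finset V → Prop
  | single (x : V) : Coll {x}
  | step (s : Finset V) (x : V) : x ∈ s → Coll (s.erase x) → Coll (sph G s x) → Coll s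

/-- `IsSph G n s`: the subgraph induced on `s` is an `(n-1)`-sphere. -/
def IsSph : ℕ → Finset V → Prop
  | 0, s => s = ∅
  | n + 1, s => (∀ x ∈ s, IsSph n (sph G s x)) ∧ ∃ x ∈ s, Coll G (s.erase x)

/-- `IsGr G n s`: the subgraph induced on `s` is an `(n-1)`-graph. -/
def IsGr : ℕ → Finset V → Prop
  | 0, s => s = ∅
  | n + 1, s => ∀ x ∈ s, IsSph G n (sph G s x)

/-- `IsVar G n s`: the subgraph induced on `s` is an `(n-1)`-variety. -/
def IsVar : ℕ → Finset V → Prop
  | 0, s => s = ∅
  | n + 1, s => ∃ Z ⊆ s, (∀ x ∈ Z, ∀ y ∈ Z, ¬ G.Adj x y) ∧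
      (∀ x ∈ s, x ∉ Z → IsGr G n (sph G s x)) ∧ ∀ x ∈ Z, IsVar n (sph G s x)

/-- Two vertex sets are adjacent when one strictly contains the other. -/
def Inc (V : Type) : SimpleGraph (Finset V) where
  Adj a b := a ⊂ b ∨ b ⊂ a
  symm := ⟨fun _ _ h => h.symm⟩
  loopless := ⟨fun a h => by simp at h⟩

/-- The vertices of the Barycentric refinement: vertex sets of complete subgraphs of `G`. -/
noncomputable def simplices : Finset (Finset V) :=
  univ.filter (fun c : Finset V => c.Nonempty ∧ G.IsClique (c : Set V))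

/-- `v_k(G_1)`: complete subgraphs with `k + 1` vertices of the Barycentric refinement. -/
noncomputable def vk (k : ℕ) : ℕ :=
  (((simplices G).powersetCard (k + 1)).filter
    (fun C : Finset (Finset V) => (Inc V).IsClique (C : Set (Finset V)))).card

/-- `η(G) = 2 v_1(G_1) - 3 v_2(G_1) + ⋯` (terms with `k` above the number of vertices vanish). -/
noncomputable def eta : ℤ :=
  ∑ k ∈ Icc 1 (simplices G).card, (-1) ^ (k + 1) * ((k : ℤ) + 1) * (vk G k : ℤ)

end defs

section gen
variable {W : Type} [Fintype W] (H : SimpleGraph W)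

noncomputable def cl (s : Finset W) : Finset (Finset W) :=
  s.powerset.filter (fun c : Finset W => H.IsClique (c : Set W))

noncomputable def e (s : Finset W) : ℚ := ∑ c ∈ cl H s, (-1) ^ c.card

omit [Fintype W] in
lemma e_empty : e H ∅ = 1 := by
  have : cl H ∅ = {∅} := by
    ext c; simp only [cl, powerset_empty, mem_filter, mem_singleton, and_iff_left_iff_imp]
    rintro rfl; simp
  simp [e, this]

lemma e_rec {s : Finset W} {x : W} (hx : x ∈ s) : e H s = e H (s.erase x) - e H (sph H s x) := by
  have h1 : e H s = ∑ c ∈ (insert x (s.erase x)).powerset,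
      if H.IsClique (c : Set W) then (-1 : ℚ) ^ c.card else 0 := by
    rw [insert_erase hx, e, cl, sum_filter]
  rw [h1, sum_powerset_insert (notMem_erase x s), ← sum_filter, ← sum_filter, sub_eq_add_neg]
  congr 1
  have h2 : (s.erase x).powerset.filter (fun c : Finset W => H.IsClique ((insert x c : Finset W) : Set W))
      = cl H (sph H s x) := by
    ext c
    simp only [cl, sph, mem_filter, mem_powerset, coe_insert, SimpleGraph.isClique_insert,
      subset_iff, mem_erase, mem_coe]
    constructor
    · rintro ⟨h1, h2, h3⟩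
      exact ⟨fun y hy => ⟨(h1 hy).2, h3 y hy (h1 hy).1.symm⟩, h2⟩
    · rintro ⟨h1, h2⟩
      exact ⟨fun y hy => ⟨(h1 hy).2.ne.symm, (h1 hy).1⟩, h2, fun y hy _ => (h1 hy).2⟩
  rw [h2, e, ← sum_neg_distrib]
  apply sum_congr rfl
  intro c hc
  have : x ∉ c := by
    intro h
    simp only [cl, sph, mem_filter, mem_powerset] at hc
    exact H.irrefl (mem_filter.1 (hc.1 h)).2
  rw [card_insert_of_notMem this, pow_succ]; ring

lemma e_join (U : Finset W) : ∀ (n : ℕ) (D : Finset W), D.card = n →
    (∀ x ∈ D, ∀ y ∈ U, H.Adj x y) → e H (D ∪ U) = e H D * e H U := by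
  intro n
  induction n using Nat.strong_induction_on with
  | _ n ih =>
    intro D hD h
    rcases D.eq_empty_or_nonempty with rfl | ⟨x, hx⟩
    · simp [e_empty]
    · have hxU : x ∉ U := fun h' => H.irrefl (h x hx x h')
      have e1 : (D ∪ U).erase x = D.erase x ∪ U := by
        rw [erase_union_distrib, erase_eq_of_notMem hxU]
      have e2 : sph H (D ∪ U) x = sph H D x ∪ U := by
        unfold sph
        rw [filter_union, filter_true_of_mem (h x hx)]
      have c1 : (D.erase x).card < n := hD ▸ card_erase_lt_of_mem hx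
      have c2 : (sph H D x).card < n := by
        refine lt_of_le_of_lt (card_le_card ?_) c1
        intro y hy
        rw [sph, mem_filter] at hy
        exact mem_erase.2 ⟨hy.2.ne.symm, hy.1⟩
      rw [e_rec H (mem_union_left U hx), e1, e2,
        ih _ c1 _ rfl (fun y hy => h y (mem_of_mem_erase hy)),
        ih _ c2 _ rfl (fun y hy => h y (mem_filter.1 hy).1), e_rec H hx]
      ring

lemma e_weight (s : Finset W) :
    ∑ c ∈ cl H s, (-1 : ℚ) ^ c.card * c.card = -∑ x ∈ s, e H (sph H s x) := by
  have h1 : ∀ x ∈ s, e H (sph H s x) = -∑ c ∈ cl H s, if x ∈ c then (-1 : ℚ) ^ c.card else 0 := by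
    intro x hx
    have h2 := e_rec H hx
    have h3 : cl H (s.erase x) = (cl H s).filter (fun c => ¬ x ∈ c) := by
      ext c; simp only [cl, mem_filter, mem_powerset, subset_erase]; tauto
    have h4 := sum_filter_add_sum_filter_not (cl H s) (fun c => x ∈ c) (fun c => (-1 : ℚ) ^ c.card)
    rw [← sum_filter]
    unfold e at h2 ⊢
    rw [h3] at h2
    linarith
  rw [sum_congr rfl h1, sum_neg_distrib, neg_neg, sum_comm]
  apply sum_congr rfl
  intro c hc
  have : c ⊆ s := mem_powerset.1 (mem_filter.1 hc).1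
  rw [← sum_filter, filter_mem_eq_inter, inter_eq_right.2 this, sum_const, nsmul_eq_mul, mul_comm]

lemma e_coll {s : Finset W} (h : Coll H s) : e H s = 0 := by
  induction h with
  | single x =>
    rw [e_rec H (mem_singleton_self x)]
    have : sph H {x} x = ∅ := by simp [sph]
    simp [this]
  | step s x hx _ _ ih1 ih2 => rw [e_rec H hx, ih1, ih2, sub_zero]

lemma e_sph : ∀ (n : ℕ) (s : Finset W), IsSph H n s → e H s = (-1) ^ n
  | 0, s, h => by rw [show s = ∅ from h, e_empty, pow_zero]
  | n + 1, s, h => by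
    obtain ⟨h1, x, hx, h2⟩ := h
    rw [e_rec H hx, e_coll H h2, e_sph n _ (h1 x hx), pow_succ]; ring

noncomputable def lk (s c : Finset W) : Finset W := s.filter (fun v => ∀ y ∈ c, H.Adj y v)

lemma lk_insert (s c : Finset W) (x : W) : lk H s (insert x c) = lk H (sph H s x) c := by
  ext v; simp [lk, sph, and_assoc]

lemma sub_sph {s c : Finset W} {x : W} (hx : x ∉ c) (hs : insert x c ⊆ s)
    (hc : H.IsClique ((insert x c : Finset W) : Set W)) : c ⊆ sph H s x := by
  intro y hy
  refine mem_filter.2 ⟨hs (mem_insert_of_mem hy), hc (by simp) (by simp [hy]) ?_⟩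
  rintro rfl; exact hx hy

lemma e_lk (c : Finset W) : ∀ (n : ℕ) (s : Finset W), IsSph H n s → c ⊆ s →
    H.IsClique (c : Set W) → e H (lk H s c) = (-1) ^ (n + c.card) := by
  induction c using Finset.induction_on with
  | empty => intro n s h _ _; simpa [lk] using e_sph H n s h
  | insert x c hx ih =>
    intro n s h hs hc
    have hxs := hs (mem_insert_self x c)
    rcases n with _ | n
    · rw [show s = ∅ from h] at hxs; simp at hxs
    · rw [lk_insert, ih n _ (h.1 x hxs) (sub_sph H hx hs hc) (hc.subset (by simp)),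
        card_insert_of_notMem hx, show n + 1 + (c.card + 1) = n + c.card + 2 by omega, pow_add _ _ 2]
      ring

lemma e_lk_var (n : ℕ) (h : IsVar H n univ) (c : Finset W) (hc : H.IsClique (c : Set W))
    (h2 : 2 ≤ c.card) : e H (lk H univ c) = (-1) ^ (n + c.card) := by
  obtain ⟨a, ha, b, hb, hab⟩ := one_lt_card.1 h2
  rcases n with _ | n
  · have : a ∈ (univ : Finset W) := mem_univ a
    rw [show (univ : Finset W) = ∅ from h] at this; simp at this
  obtain ⟨Z, _, z1, z2, _⟩ := h
  obtain ⟨x, hx, y, hy, hxy, hxZ⟩ : ∃ x ∈ c, ∃ y ∈ c, x ≠ y ∧ x ∉ Z := by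
    by_cases haZ : a ∈ Z
    · exact ⟨b, hb, a, ha, hab.symm, fun hbZ => z1 a haZ b hbZ (hc ha hb hab)⟩
    · exact ⟨a, ha, b, hb, hab, haZ⟩
  obtain ⟨c', rfl, hx', hy'⟩ : ∃ c', c = insert x (insert y c') ∧ x ∉ insert y c' ∧ y ∉ c' := by
    refine ⟨(c.erase x).erase y, ?_, by simp [hxy], by simp⟩
    rw [insert_erase (mem_erase.2 ⟨hxy.symm, hy⟩), insert_erase hx]
  have g1 := z2 x (mem_univ x) hxZ
  have s1 := sub_sph H hx' (subset_univ _) hc
  have hc1 : H.IsClique ((insert y c' : Finset W) : Set W) := hc.subset (by simp)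
  have hys := s1 (mem_insert_self y c')
  rcases n with _ | n
  · rw [show sph H univ x = ∅ from g1] at hys; simp at hys
  rw [lk_insert, lk_insert, e_lk H c' n _ (g1 y hys) (sub_sph H hy' s1 hc1) (hc1.subset (by simp)),
    card_insert_of_notMem hx', card_insert_of_notMem hy',
    show n + 1 + 1 + (c'.card + 1 + 1) = n + c'.card + 4 by omega, pow_add _ _ 4]
  ring

noncomputable def B (x : Finset W) : ℚ :=
  ∑ y ∈ (cl H univ).filter (fun y => x ⊆ y), (-1) ^ y.card

lemma B_eq (x : Finset W) (hx : H.IsClique (x : Set W)) :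
    B H x = (-1) ^ x.card * e H (lk H univ x) := by
  rw [B, e, mul_sum]
  symm
  apply sum_bij' (fun c _ => c ∪ x) (fun y _ => y \ x)
  · intro c hc
    simp only [cl, lk, mem_filter, mem_powerset, subset_iff, mem_univ, true_and] at hc
    simp only [cl, mem_filter, mem_powerset, subset_univ, true_and, subset_union_right, and_true]
    intro a ha b hb hab
    simp only [coe_union, Set.mem_union, mem_coe] at ha hb
    rcases ha with ha | ha <;> rcases hb with hb | hb
    · exact hc.2 ha hb hab
    · exact (hc.1 ha b hb).symm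
    · exact hc.1 hb a ha
    · exact hx ha hb hab
  · intro y hy
    simp only [cl, mem_filter, mem_powerset, subset_univ, true_and] at hy
    simp only [cl, lk, mem_filter, mem_powerset, subset_iff, mem_univ, true_and, mem_sdiff]
    refine ⟨fun v hv a ha => hy.1 (hy.2 ha) hv.1 (by rintro rfl; exact hv.2 ha), hy.1.subset ?_⟩
    simp
  · intro c hc
    simp only [cl, lk, mem_filter, mem_powerset, subset_iff, mem_univ, true_and] at hc
    apply union_sdiff_cancel_right
    exact disjoint_left.2 fun a ha hax => H.irrefl (hc.1 ha a hax)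
  · intro y hy
    exact sdiff_union_of_subset (mem_filter.1 hy).2
  · intro c hc
    simp only [cl, lk, mem_filter, mem_powerset, subset_iff, mem_univ, true_and] at hc
    rw [card_union_of_disjoint (disjoint_left.2 fun a ha hax => H.irrefl (hc.1 ha a hax)), pow_add,
      mul_comm]

omit [Fintype W] in
lemma interval_sum (x y : Finset W) (h : x ⊆ y) (t : ℚ) :
    ∑ m ∈ y.powerset.filter (fun m => x ⊆ m), t ^ m.card =
      t ^ x.card * (1 + t) ^ (y.card - x.card) := by
  have h1 := prod_one_add (s := y \ x) (f := fun _ => t)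
  simp only [prod_const] at h1
  rw [← card_sdiff_of_subset h, h1, mul_sum]
  symm
  apply sum_bij' (fun c _ => c ∪ x) (fun m _ => m \ x)
  · intro c hc
    rw [mem_powerset] at hc
    exact mem_filter.2 ⟨mem_powerset.2 (union_subset (hc.trans sdiff_subset) h), subset_union_right⟩
  · intro m hm
    exact mem_powerset.2 (sdiff_subset_sdiff (mem_powerset.1 (mem_filter.1 hm).1) (Subset.refl _))
  · intro c hc
    exact union_sdiff_cancel_right (subset_sdiff.1 (mem_powerset.1 hc)).2
  · intro m hm
    exact sdiff_union_of_subset (mem_filter.1 hm).2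
  · intro c hc
    rw [card_union_of_disjoint (subset_sdiff.1 (mem_powerset.1 hc)).2, pow_add, mul_comm]

lemma key (x : Finset W) (t : ℚ) :
    ∑ m ∈ (cl H univ).filter (fun m => x ⊆ m), t ^ m.card * B H m =
      ∑ y ∈ (cl H univ).filter (fun y => x ⊆ y),
        (-1) ^ y.card * (t ^ x.card * (1 + t) ^ (y.card - x.card)) := by
  simp only [B, mul_sum]
  rw [sum_comm' (t' := (cl H univ).filter (fun y => x ⊆ y))
    (s' := fun y => y.powerset.filter (fun m => x ⊆ m))]
  · apply sum_congr rfl
    intro y hy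
    rw [← interval_sum x y (mem_filter.1 hy).2, mul_sum]
    apply sum_congr rfl
    intro m _
    ring
  · intro m y
    simp only [cl, mem_filter, mem_powerset, subset_univ, true_and]
    constructor
    · rintro ⟨⟨h1, h2⟩, h3, h4⟩
      exact ⟨⟨h4, h2⟩, h3, h2.trans h4⟩
    · rintro ⟨⟨h1, h2⟩, h3, h4⟩
      exact ⟨⟨h3.subset (coe_subset.2 h1), h2⟩, h3, h1⟩

noncomputable def below (r : W → W → Prop) (s : Finset W) (m : W) : Finset W :=
  s.filter (fun a => r a m)

lemma e_down (r : W → W → Prop) (φ : W → ℤ) (h1 : ∀ a b, H.Adj a b ↔ r a b ∨ r b a)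
    (h2 : ∀ a b, r a b → φ a < φ b) : ∀ (n : ℕ) (s : Finset W), s.card = n →
    e H s = 1 - ∑ m ∈ s, e H (below r s m) := by
  intro n
  induction n with
  | zero => intro s hs; rw [card_eq_zero.1 hs]; simp [e_empty]
  | succ n ih =>
    intro s hs
    obtain ⟨m, hm, hmax⟩ := exists_max_image s φ (card_pos.1 (by omega))
    have e1 : sph H s m = below r s m := by
      apply filter_congr
      intro a ha
      rw [h1]
      exact ⟨fun h => h.resolve_left fun h' => absurd (h2 _ _ h') (not_lt.2 (hmax a ha)), Or.inr⟩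
    have e2 : ∀ a ∈ s.erase m, e H (below r (s.erase m) a) = e H (below r s a) := by
      intro a ha
      congr 1
      ext b
      simp only [below, mem_filter, mem_erase]
      refine ⟨fun h => ⟨h.1.2, h.2⟩, fun h => ⟨⟨?_, h.1⟩, h.2⟩⟩
      rintro rfl
      exact absurd (h2 _ _ h.2) (not_lt.2 (hmax a (mem_of_mem_erase ha)))
    rw [e_rec H hm, ih _ (by rw [card_erase_of_mem hm]; omega), e1, sum_congr rfl e2,
      ← add_sum_erase s _ hm]
    ring

lemma e_split (r : W → W → Prop) (h1 : ∀ a b, H.Adj a b ↔ r a b ∨ r b a)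
    (h3 : ∀ a b c, r a b → r b c → r a c) (s : Finset W) (x : W) :
    e H (sph H s x) = e H (below r s x) * e H (below (fun a b => r b a) s x) := by
  rw [← e_join H _ _ _ rfl]
  · congr 1
    ext a
    simp only [sph, below, mem_filter, mem_union, h1]
    tauto
  · intro a ha b hb
    exact (h1 _ _).2 (Or.inl (h3 _ _ _ (mem_filter.1 ha).2 (mem_filter.1 hb).2))

omit [Fintype W] in
lemma mem_below {r : W → W → Prop} {s : Finset W} {x m : W} :
    m ∈ below r s x ↔ m ∈ s ∧ r m x := mem_filter

omit [Fintype W] in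
lemma below_below (r : W → W → Prop) (h3 : ∀ a b c, r a b → r b c → r a c) (s : Finset W)
    (x m : W) (h : r m x) : below r (below r s x) m = below r s m := by
  ext a
  simp only [below, mem_filter]
  exact ⟨fun h' => ⟨h'.1.1, h'.2⟩, fun h' => ⟨⟨h'.1, h3 _ _ _ h'.2 h⟩, h'.2⟩⟩

lemma weight_fib (s : Finset W) :
    ∑ c ∈ cl H s, (-1 : ℚ) ^ c.card * c.card =
      ∑ k ∈ Icc 1 s.card, (-1 : ℚ) ^ (k + 1) * ((k : ℚ) + 1) *
        (((cl H s).filter (fun c => c.card = k + 1)).card : ℚ) - s.card := by
  rw [← sum_fiberwise_of_maps_to (s := cl H s) (t := range (s.card + 2)) (g := fun c => c.card)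
    (fun c hc => mem_range.2 (by
      have := card_le_card (mem_powerset.1 (mem_filter.1 hc).1)
      omega))]
  have h1 : ∀ j, ∑ c ∈ (cl H s).filter (fun c => c.card = j), (-1 : ℚ) ^ c.card * c.card =
      (-1) ^ j * j * (((cl H s).filter (fun c => c.card = j)).card : ℚ) := by
    intro j
    rw [sum_congr rfl (g := fun _ => (-1 : ℚ) ^ j * j) (fun c hc => by rw [(mem_filter.1 hc).2]),
      sum_const, nsmul_eq_mul, mul_comm]
  have h2 : ((cl H s).filter (fun c => c.card = 1)).card = s.card := by
    have : (cl H s).filter (fun c => c.card = 1) = s.powersetCard 1 := by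
      ext c
      simp only [cl, mem_filter, mem_powerset, mem_powersetCard]
      refine ⟨fun h => ⟨h.1.1, h.2⟩, fun h => ⟨⟨h.1, ?_⟩, h.2⟩⟩
      obtain ⟨v, rfl⟩ := card_eq_one.1 h.2
      simp
    rw [this, card_powersetCard, Nat.choose_one_right]
  simp only [h1]
  rw [sum_range_succ', sum_range_succ', ← Ico_add_one_right_eq_Icc, sum_Ico_eq_sum_range]
  simp only [zero_add, h2, Nat.add_sub_cancel]
  rw [sum_congr rfl (g := fun k => (-1 : ℚ) ^ (1 + k + 1) * (((1 + k : ℕ) : ℚ) + 1) *
    (((cl H s).filter (fun c => c.card = 1 + k + 1)).card : ℚ))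
    (fun k _ => by rw [add_comm 1 k]; push_cast; ring)]
  push_cast
  ring

end gen

section main
variable {V : Type} [Fintype V] (G : SimpleGraph V)

lemma mem_simp {c : Finset V} : c ∈ simplices G ↔ c.Nonempty ∧ G.IsClique (c : Set V) := by
  simp [simplices]

lemma a_eq : ∀ (n : ℕ) (x : Finset V), x.card = n → x ∈ simplices G →
    e (Inc V) (below (fun a b => a ⊂ b) (simplices G) x) = -(-1) ^ x.card := by
  intro n
  induction n using Nat.strong_induction_on with
  | _ n ih =>
    intro x hx hxs
    rw [e_down (Inc V) (fun a b => a ⊂ b) (fun a => (a.card : ℤ)) (fun _ _ => Iff.rfl)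
      (fun a b h => by exact_mod_cast card_lt_card h) _ _ rfl]
    rw [sum_congr rfl (g := fun m => -(-1 : ℚ) ^ m.card) (fun m hm => by
      have hm' : m ∈ simplices G ∧ m ⊂ x := mem_below.1 hm
      rw [below_below (fun a b : Finset V => a ⊂ b) (fun a b c h h' => h.trans h')
        (simplices G) x m hm'.2]
      exact ih _ (hx ▸ card_lt_card hm'.2) m rfl hm'.1)]
    obtain ⟨hne, hcl⟩ := (mem_simp G).1 hxs
    have h0 := interval_sum ∅ x (empty_subset x) (-1)
    have hpos := hne.card_pos
    rw [filter_true_of_mem (fun _ _ => empty_subset _), add_neg_cancel,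
      zero_pow (by simp; exact hne.ne_empty), mul_zero] at h0
    have h1 : x.powerset = insert x (insert ∅ (below (fun a b => a ⊂ b) (simplices G) x)) := by
      ext m
      simp only [below, mem_powerset, mem_insert, mem_filter, mem_simp]
      constructor
      · intro h
        by_cases e1 : m = x
        · exact Or.inl e1
        · by_cases e2 : m = ∅
          · exact Or.inr (Or.inl e2)
          · exact Or.inr (Or.inr ⟨⟨nonempty_iff_ne_empty.2 e2, hcl.subset (coe_subset.2 h)⟩,
              ssubset_of_ne_of_subset e1 h⟩)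
      · rintro (rfl | rfl | h)
        · exact Subset.refl _
        · exact empty_subset _
        · exact h.2.subset
    rw [h1, sum_insert (by simp [below, hne.ne_empty]), sum_insert (by simp [below, mem_simp])] at h0
    rw [sum_neg_distrib]
    simp only [card_empty, pow_zero] at h0
    linarith

lemma key1 (x : Finset V) (hx : G.IsClique (x : Set V)) :
    ∑ m ∈ (cl G univ).filter (fun m => x ⊆ m), (-1 : ℚ) ^ m.card * B G m = 1 := by
  rw [key, sum_eq_single_of_mem x (by simp [cl, hx])]
  · rw [Nat.sub_self, pow_zero, mul_one, ← mul_pow]; simp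
  · intro y hy hne
    have : x.card < y.card := card_lt_card (ssubset_of_ne_of_subset hne.symm (mem_filter.1 hy).2)
    rw [add_neg_cancel, zero_pow (by omega)]; simp

lemma b_eq : ∀ (n : ℕ) (x : Finset V), Fintype.card V - x.card = n → x ∈ simplices G →
    e (Inc V) (below (fun a b => b ⊂ a) (simplices G) x) = (-1) ^ x.card * B G x := by
  intro n
  induction n using Nat.strong_induction_on with
  | _ n ih =>
    intro x hx hxs
    rw [e_down (Inc V) (fun a b => b ⊂ a) (fun a => -(a.card : ℤ)) (fun _ _ => Or.comm)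
      (fun a b h => by have := card_lt_card h; omega) _ _ rfl]
    rw [sum_congr rfl (g := fun m => (-1 : ℚ) ^ m.card * B G m) (fun m hm => by
      have hm' : m ∈ simplices G ∧ x ⊂ m := mem_below.1 hm
      rw [below_below (fun a b : Finset V => b ⊂ a) (fun a b c h h' => h'.trans h)
        (simplices G) x m hm'.2]
      have c1 := card_lt_card hm'.2
      have c2 := card_le_univ m
      exact ih _ (by omega) m rfl hm'.1)]
    obtain ⟨hne, hcl⟩ := (mem_simp G).1 hxs
    have h0 := key1 G x hcl
    have h1 : (cl G univ).filter (fun m => x ⊆ m) =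
        insert x (below (fun a b => b ⊂ a) (simplices G) x) := by
      ext m
      simp only [below, cl, mem_powerset, mem_insert, mem_filter, mem_simp, subset_univ, true_and]
      constructor
      · intro h
        by_cases e1 : m = x
        · exact Or.inl e1
        · exact Or.inr ⟨⟨hne.mono h.2, h.1⟩, ssubset_of_ne_of_subset (Ne.symm e1) h.2⟩
      · rintro (rfl | h)
        · exact ⟨hcl, Subset.refl _⟩
        · exact ⟨h.1.2, h.2.subset⟩
    rw [h1, sum_insert (by simp [below])] at h0
    linarith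

lemma eta_eq : (eta G : ℚ) = ∑ x ∈ simplices G, (1 + B G x) := by
  have h1 := weight_fib (Inc V) (simplices G)
  rw [e_weight] at h1
  have h2 : ∀ x ∈ simplices G, e (Inc V) (sph (Inc V) (simplices G) x) = -B G x := by
    intro x hx
    rw [e_split (Inc V) (fun a b => a ⊂ b) (fun _ _ => Iff.rfl) (fun a b c h h' => h.trans h'),
      a_eq G _ x rfl hx, b_eq G _ x rfl hx, neg_mul, ← mul_assoc, ← mul_pow]
    simp
  rw [sum_congr rfl h2, sum_neg_distrib, neg_neg] at h1
  rw [sum_add_distrib, h1, sum_const, nsmul_eq_mul, mul_one, add_sub_cancel, eta]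
  push_cast
  apply sum_congr rfl
  intro k _
  congr 2
  unfold vk
  congr 1
  ext c
  simp only [cl, mem_filter, mem_powersetCard, mem_powerset]
  tauto

lemma vert (ε : ℚ) (hB : ∀ c : Finset V, G.IsClique (c : Set V) → 2 ≤ c.card → B G c = ε)
    (v : V) : 1 + B G {v} = (1 + ε) * ∑ m ∈ ((cl G univ).filter (fun m => 2 ≤ m.card)),
      if v ∈ m then 2 * (-1 / 2 : ℚ) ^ m.card else 0 := by
  have h0 := key G {v} (-1 / 2)
  have h1 : (cl G univ).filter (fun m => {v} ⊆ m) =
      insert {v} (((cl G univ).filter (fun m => 2 ≤ m.card)).filter (fun m => v ∈ m)) := by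
    ext m
    simp only [cl, mem_powerset, mem_insert, mem_filter, subset_univ, true_and,
      singleton_subset_iff]
    constructor
    · intro h
      by_cases e1 : m = {v}
      · exact Or.inl e1
      · refine Or.inr ⟨⟨h.1, ?_⟩, h.2⟩
        exact card_lt_card (s := {v}) (ssubset_of_ne_of_subset (Ne.symm e1) (by simp [h.2]))
    · rintro (rfl | h)
      · simp
      · exact ⟨h.1.1, h.2⟩
  rw [h1, sum_insert (by simp), sum_insert (by simp)] at h0
  rw [← sum_filter]
  rw [sum_congr rfl (g := fun m => ε * (-1 / 2 : ℚ) ^ m.card) (fun m hm => by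
    have := mem_filter.1 (mem_filter.1 hm).1
    rw [hB m (mem_filter.1 this.1).2 this.2, mul_comm])] at h0
  rw [sum_congr rfl (g := fun m : Finset V => -(-1 / 2 : ℚ) ^ m.card)
    (f := fun y : Finset V => (-1 : ℚ) ^ y.card *
      ((-1 / 2) ^ ({v} : Finset V).card * (1 + -1 / 2) ^ (y.card - ({v} : Finset V).card)))
    (fun m hm => by
    have := (mem_filter.1 (mem_filter.1 hm).1).2
    obtain ⟨j, hj⟩ : ∃ j, m.card = j + 1 := ⟨m.card - 1, by omega⟩
    rw [hj, card_singleton, Nat.add_sub_cancel,
      show (-1 / 2 : ℚ) ^ (j + 1) = (-1) ^ (j + 1) * (1 / 2) ^ (j + 1) by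
        rw [← mul_pow]; norm_num]
    norm_num [pow_succ]
    ring)] at h0
  rw [← mul_sum, sum_neg_distrib] at h0
  rw [← mul_sum]
  simp only [card_singleton, Nat.sub_self, pow_one, pow_zero] at h0
  linarith

lemma term_nonneg (k : ℕ) (hk : 2 ≤ k) : (0 : ℚ) ≤ 1 + k * (2 * (-1 / 2) ^ k) := by
  have h1 : ∀ j : ℕ, ((j + 2 : ℕ) : ℚ) * (2 * (1 / 2) ^ (j + 2)) ≤ 1 := by
    intro j
    induction j with
    | zero => norm_num
    | succ j ih =>
      have : (0 : ℚ) < (1 / 2) ^ (j + 2) := by positivity
      rw [show j + 1 + 2 = j + 2 + 1 by omega, pow_succ]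
      push_cast at ih ⊢
      have : (0 : ℚ) ≤ j := by positivity
      nlinarith
  obtain ⟨j, rfl⟩ := Nat.exists_eq_add_of_le' hk
  have h2 : -(1 / 2 : ℚ) ^ (j + 2) ≤ (-1 / 2) ^ (j + 2) := by
    have := neg_abs_le ((-1 / 2 : ℚ) ^ (j + 2))
    rw [abs_pow] at this
    norm_num at this ⊢
    exact this
  have h3 := h1 j
  have : (0 : ℚ) ≤ ((j + 2 : ℕ) : ℚ) := by positivity
  nlinarith

end main

theorem result (V : Type) [Fintype V] (G : SimpleGraph V) (d : ℕ)
    (h : IsVar G (d + 1) univ) : 0 ≤ eta G := by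
  have hB : ∀ c : Finset V, G.IsClique (c : Set V) → 2 ≤ c.card → B G c = (-1) ^ (d + 1) := by
    intro c hc h2
    rw [B_eq G c hc, e_lk_var G _ h c hc h2, pow_add _ (d + 1), mul_comm, mul_assoc, ← mul_pow]
    simp
  have hε : (0 : ℚ) ≤ 1 + (-1) ^ (d + 1) := by
    rcases neg_one_pow_eq_or ℚ (d + 1) with h | h <;> rw [h] <;> norm_num
  have h1 : simplices G = univ.map ⟨fun v : V => ({v} : Finset V), singleton_injective⟩ ∪
      (cl G univ).filter (fun m => 2 ≤ m.card) := by
    ext m
    simp only [mem_simp, cl, mem_union, mem_map, mem_univ, true_and, mem_filter, mem_powerset,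
      subset_univ, Function.Embedding.coeFn_mk]
    constructor
    · rintro ⟨h1, h2⟩
      by_cases e1 : m.card = 1
      · obtain ⟨v, rfl⟩ := card_eq_one.1 e1
        exact Or.inl ⟨v, rfl⟩
      · have := h1.card_pos
        exact Or.inr ⟨h2, by omega⟩
    · rintro (⟨v, rfl⟩ | h)
      · simp
      · exact ⟨card_pos.1 (by omega), h.1⟩
  have h2 := eta_eq G
  rw [h1, sum_union (by
    rw [disjoint_left]
    intro m hm hm'
    obtain ⟨v, _, rfl⟩ := mem_map.1 hm
    simpa using (mem_filter.1 hm').2), sum_map] at h2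
  simp only [Function.Embedding.coeFn_mk, vert G _ hB] at h2
  rw [← mul_sum, sum_comm, sum_congr rfl (g := fun _ => (1 + (-1 : ℚ) ^ (d + 1)) * 1)
    (f := fun x => 1 + B G x) (fun m hm => by
      have := mem_filter.1 hm
      rw [hB m (mem_filter.1 this.1).2 this.2, mul_one]), ← mul_sum, ← mul_add,
    ← sum_add_distrib] at h2
  have h3 : (0 : ℚ) ≤ (eta G : ℚ) := by
    rw [h2]
    apply mul_nonneg hε
    apply sum_nonneg
    intro m hm
    rw [← sum_filter, filter_mem_eq_inter, univ_inter, sum_const, nsmul_eq_mul, add_comm]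
    exact term_nonneg _ (mem_filter.1 hm).2
  exact_mod_cast h3

end Pool.Agent.Results.MP_165839_co.Eta
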